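import Pool.Agent.helper24.TG.S1

set_option linter.all false
set_option autoImplicit false

namespace Pool.Agent.helper24.TG

open Finset Classical
open Pool.Agent.helper11.Tight (nb eo mem_nb)

theorem LB5_cardPA {P O : Type} [Fintype P] [DecidableEq P] [Fintype O] [DecidableEq O] {q : ℕ}
    (H : Host P O q) : (PA H).card = q ^ 2 := by
  have h1 := H.card_P
  have h2 := H.card_line H.linf
  have h3 : (PA H).card + (Finset.univ.filter (fun x => H.inc x H.linf)).card
      = Fintype.card P := by
    have h4 := Finset.card_filter_add_card_filter_not (s := (Finset.univ : Finset P))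
      (fun x => H.inc x H.linf)
    have h5 : PA H = Finset.univ.filter (fun x => ¬ H.inc x H.linf) := by
      ext x; simp
    rw [h5, ← Finset.card_univ, ← h4]
    exact add_comm _ _
  omega

theorem LB5 : LB5_stmt := by
  intro p P O V _ _ _ _ _ _ H v0 hV
  have hPA := LB5_cardPA H
  have hc : Fintype.card {t // t ∈ PA H} = Fintype.card (V × Fin p.w) := by
    rw [Fintype.card_coe, hPA, Fintype.card_prod, hV, Fintype.card_fin, p.hw, mul_comm]
  obtain ⟨e⟩ := Fintype.card_eq.mp hc
  refine ⟨fun t => if h : t ∈ PA H then (e ⟨t, h⟩).1 else v0, ?_⟩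
  unfold Psi
  rw [Finset.mem_filter]
  refine ⟨Finset.mem_univ _, ?_, ?_⟩
  · intro u
    have : ((PA H).filter (fun t => (if h : t ∈ PA H then (e ⟨t, h⟩).1 else v0) = u)) =
        (Finset.univ : Finset (Fin p.w)).image (fun i => (e.symm (u, i)).1) := by
      ext t
      simp only [Finset.mem_filter, Finset.mem_image, Finset.mem_univ, true_and]
      constructor
      · rintro ⟨ht, h⟩
        rw [dif_pos ht] at h
        refine ⟨(e ⟨t, ht⟩).2, ?_⟩
        rw [← h]
        simp
      · rintro ⟨i, rfl⟩
        refine ⟨(e.symm (u, i)).2, ?_⟩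
        rw [dif_pos (e.symm (u, i)).2]
        simp
    rw [this, Finset.card_image_of_injective]
    · simp
    · intro i j hij
      have := Subtype.ext hij
      have := e.symm.injective this
      simpa using this
  · intro t ht
    exact dif_neg ht

end Pool.Agent.helper24.TG
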