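import Pool.Agent.helper24.TG.S1

set_option linter.all false
set_option autoImplicit false

namespace Pool.Agent.helper24.TG

open Finset Classical
open Pool.Agent.helper11.Tight (nb eo mem_nb)

theorem LB6 (h1 : LB1_stmt) : LB6_stmt := by
  intro p P O V _ _ _ _ _ _ H v0 hV k e SS he hPA hk
  set J : Finset P := (Finset.univ : Finset (Fin k)).image e with hJ
  have hJc : J.card = k := by
    rw [hJ, Finset.card_image_of_injective _ he]; simp
  have hJP : J ⊆ PA H := by
    intro t ht
    rw [hJ, Finset.mem_image] at ht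
    obtain ⟨i, _, rfl⟩ := ht
    exact hPA i
  set X : ℝ := (Psi p H v0).card * Real.exp (2 * (k : ℝ) ^ 2 / (p.q : ℝ) ^ 2) with hX
  have key : ∀ s ∈ SS, (((Psi p H v0).filter (fun φ => (fun i => φ (e i)) = s)).card : ℝ) *
      (p.N : ℝ) ^ k ≤ X := by
    intro s _
    have := h1 p P O V H v0 hV (Function.extend e s (fun _ => v0)) J hJP (by rw [hJc]; exact hk)
    rw [hJc] at this
    refine le_trans ?_ this
    refine mul_le_mul_of_nonneg_right ?_ (by positivity)
    have : ((Psi p H v0).filter (fun φ => (fun i => φ (e i)) = s)).card ≤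
        ((Psi p H v0).filter (fun φ => ∀ t ∈ J, φ t = Function.extend e s (fun _ => v0) t)).card := by
      refine Finset.card_le_card ?_
      intro φ hφ
      rw [Finset.mem_filter] at hφ ⊢
      refine ⟨hφ.1, ?_⟩
      intro t ht
      rw [hJ, Finset.mem_image] at ht
      obtain ⟨i, _, rfl⟩ := ht
      rw [he.extend_apply, ← hφ.2]
    exact_mod_cast this
  have h2 : ((Psi p H v0).filter (fun φ => (fun i => φ (e i)) ∈ SS)).card ≤
      ∑ s ∈ SS, ((Psi p H v0).filter (fun φ => (fun i => φ (e i)) = s)).card := by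
    refine (Finset.card_le_card ?_).trans Finset.card_biUnion_le
    intro φ hφ
    rw [Finset.mem_filter] at hφ
    exact Finset.mem_biUnion.mpr ⟨_, hφ.2, by simp [hφ.1]⟩
  calc (((Psi p H v0).filter (fun φ => (fun i => φ (e i)) ∈ SS)).card : ℝ) * (p.N : ℝ) ^ k
      ≤ (∑ s ∈ SS, (((Psi p H v0).filter (fun φ => (fun i => φ (e i)) = s)).card : ℝ)) *
        (p.N : ℝ) ^ k := by
        refine mul_le_mul_of_nonneg_right ?_ (by positivity)
        exact_mod_cast h2
    _ = ∑ s ∈ SS, (((Psi p H v0).filter (fun φ => (fun i => φ (e i)) = s)).card : ℝ) *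
        (p.N : ℝ) ^ k := by rw [Finset.sum_mul]
    _ ≤ ∑ s ∈ SS, X := Finset.sum_le_sum key
    _ = SS.card * (Psi p H v0).card * Real.exp (2 * (k : ℝ) ^ 2 / (p.q : ℝ) ^ 2) := by
        rw [Finset.sum_const, nsmul_eq_mul, hX]; ring

end Pool.Agent.helper24.TG
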