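import Pool.Agent.helper24.TG.S1

set_option linter.all false
set_option autoImplicit false

namespace Pool.Agent.helper24.TG

open Finset Classical
open Pool.Agent.helper11.Tight (nb eo mem_nb)

theorem VS6_aux (O : Type) [Fintype O] [DecidableEq O] (TT : Finset (Finset O)) (D : ℕ)
    (hcs : CS TT D) (w : O → ℝ) (hw : ∀ o, 0 ≤ w o) :
    ∀ (n : ℕ) (F : Finset O), F.card ≤ n →
    ∃ F' ⊆ F, (∀ S ∈ TT, (S ∩ F').card ≤ 1) ∧ ∑ o ∈ F, w o ≤ (2 * D + 1) * ∑ o ∈ F', w o := by
  intro n
  induction n with
  | zero =>
    intro F hF
    have : F = ∅ := Finset.card_eq_zero.mp (by omega)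
    subst this
    exact ⟨∅, by simp, by simp, by simp⟩
  | succ n ih =>
    intro F hF
    rcases F.eq_empty_or_nonempty with rfl | hne
    · exact ⟨∅, by simp, by simp, by simp⟩
    obtain ⟨x, hx, hmax⟩ := Finset.exists_max_image F w hne
    set Nx : Finset O := (TT.filter (fun S => x ∈ S)).biUnion (fun S => S.erase x) with hNx
    have hNc : Nx.card ≤ 2 * D := by
      calc Nx.card ≤ ∑ S ∈ TT.filter (fun S => x ∈ S), (S.erase x).card :=
            Finset.card_biUnion_le
        _ ≤ ∑ S ∈ TT.filter (fun S => x ∈ S), 2 := by
            refine Finset.sum_le_sum ?_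
            intro S hS
            rw [Finset.mem_filter] at hS
            rw [Finset.card_erase_of_mem hS.2]
            rcases hcs.odd S hS.1 with h | h <;> omega
        _ = (TT.filter (fun S => x ∈ S)).card * 2 := by simp
        _ ≤ D * 2 := Nat.mul_le_mul_right _ (hcs.deg x)
        _ = 2 * D := by ring
    have hx1 : x ∉ F \ insert x Nx := by simp
    have hlt : (F \ insert x Nx).card ≤ n := by
      have : (F \ insert x Nx).card < F.card := by
        refine Finset.card_lt_card ?_
        refine (Finset.ssubset_iff_of_subset Finset.sdiff_subset).mpr ⟨x, hx, hx1⟩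
      omega
    obtain ⟨F1, hF1, h1, h2⟩ := ih (F \ insert x Nx) hlt
    have hxF1 : x ∉ F1 := fun h => hx1 (hF1 h)
    refine ⟨insert x F1, ?_, ?_, ?_⟩
    · intro y hy
      rcases Finset.mem_insert.mp hy with rfl | hy
      · exact hx
      · exact (Finset.mem_sdiff.mp (hF1 hy)).1
    · intro S hS
      by_cases hxS : x ∈ S
      · have : S ∩ insert x F1 ⊆ {x} := by
          intro y hy
          rw [Finset.mem_inter, Finset.mem_insert] at hy
          rw [Finset.mem_singleton]
          rcases hy.2 with rfl | hyF
          · rfl
          · by_contra hne'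
            have h3 := (Finset.mem_sdiff.mp (hF1 hyF)).2
            apply h3
            rw [Finset.mem_insert]
            right
            rw [hNx, Finset.mem_biUnion]
            exact ⟨S, Finset.mem_filter.mpr ⟨hS, hxS⟩, Finset.mem_erase.mpr ⟨hne', hy.1⟩⟩
        exact (Finset.card_le_card this).trans (by simp)
      · rw [Finset.inter_insert_of_notMem hxS]
        exact h1 S hS
    · have e1 : ∑ o ∈ F, w o = ∑ o ∈ F \ insert x Nx, w o + ∑ o ∈ F ∩ insert x Nx, w o := by
        rw [← Finset.sum_sdiff (Finset.inter_subset_left : F ∩ insert x Nx ⊆ F)]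
        congr 1
        refine Finset.sum_congr ?_ (fun _ _ => rfl)
        ext y
        simp only [Finset.mem_sdiff, Finset.mem_inter]
        tauto
      have e2 : ∑ o ∈ F ∩ insert x Nx, w o ≤ (2 * D + 1) * w x := by
        calc ∑ o ∈ F ∩ insert x Nx, w o ≤ ∑ o ∈ F ∩ insert x Nx, w x := by
              refine Finset.sum_le_sum ?_
              intro y hy
              exact hmax y (Finset.mem_inter.mp hy).1
          _ = (F ∩ insert x Nx).card * w x := by simp
          _ ≤ (2 * D + 1) * w x := by
              refine mul_le_mul_of_nonneg_right ?_ (hw x)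
              have h3 : (F ∩ insert x Nx).card ≤ 2 * D + 1 := by
                refine (Finset.card_le_card Finset.inter_subset_right).trans ?_
                exact (Finset.card_insert_le _ _).trans (by omega)
              exact_mod_cast h3
      rw [e1, Finset.sum_insert hxF1]
      nlinarith [h2, e2]

theorem VS6 : VS6_stmt := by
  intro O _ _ TT D hcs F w hw
  exact VS6_aux O TT D hcs w hw F.card F le_rfl

end Pool.Agent.helper24.TG
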