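import Pool.Agent.helper24.TG.S1

set_option linter.all false
set_option autoImplicit false

namespace Pool.Agent.helper24.TG

open Finset Classical
open Pool.Agent.helper11.Tight (nb eo mem_nb)

theorem VS7 : VS7_stmt := by
  intro O A _ _ _ _ _ TT D hcs hA h2
  obtain ⟨a, b, hab⟩ := Fintype.exists_pair_of_one_lt_card (α := A) (by omega)
  obtain ⟨x, hx⟩ : ∃ x : A, x ≠ 0 := by
    by_cases ha : a = 0
    · exact ⟨b, fun hb => hab (by rw [ha, hb])⟩
    · exact ⟨a, ha⟩
  refine ⟨fun _ => x, ?_⟩
  rw [mem_Om]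
  intro S hS
  rw [Finset.sum_const]
  rcases hcs.odd S hS with h | h
  · rw [h]; simpa using hx
  · rw [h]
    have : (3 : ℕ) • x = x := by
      rw [show (3 : ℕ) = 2 + 1 from rfl, add_smul, one_smul, two_smul, hA, zero_add]
    rw [this]; exact hx

end Pool.Agent.helper24.TG
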