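import Pool.Agent.helper24.TG.S3

set_option linter.all false
set_option autoImplicit false

namespace Pool.Agent.helper24.TG

open Finset Classical
open Pool.Agent.helper11.Tight (nb eo mem_nb)

/-- vectors with a condition on the coordinates in `I` -/
theorem QA2_restrict {V : Type} [Fintype V] [DecidableEq V] (k : ℕ) (I : Finset (Fin k))
    (Q : (Fin I.card → V) → Prop) (R : (Fin k → V) → Prop) [DecidablePred Q] [DecidablePred R]
    (h : ∀ u, R u → Q (fun j => u (I.equivFin.symm j).1)) :
    ((Finset.univ : Finset (Fin k → V)).filter R).card ≤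
      ((Finset.univ : Finset (Fin I.card → V)).filter Q).card *
        Fintype.card V ^ (k - I.card) := by
  have hc : Fintype.card ({i : Fin k // i ∉ I} → V) = Fintype.card V ^ (k - I.card) := by
    rw [Fintype.card_fun]
    congr 1
    rw [Fintype.card_subtype_compl, Fintype.card_fin, Fintype.card_coe]
  rw [← hc, ← Finset.card_univ (α := {i : Fin k // i ∉ I} → V), ← Finset.card_product]
  refine Finset.card_le_card_of_injOn
    (fun u => (fun j => u (I.equivFin.symm j).1, fun i => u i.1)) ?_ ?_
  · intro u hu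
    simp only [Finset.coe_filter, Finset.mem_univ, true_and, Set.mem_setOf_eq] at hu
    simp only [Finset.coe_product, Finset.coe_filter, Finset.mem_univ, true_and,
      Set.mem_prod, Set.mem_setOf_eq, Finset.coe_univ, Set.mem_univ, and_true]
    exact h u hu
  · intro u _ u' _ huu
    simp only [Prod.mk.injEq] at huu
    funext i
    by_cases hi : i ∈ I
    · have := congrFun huu.1 (I.equivFin ⟨i, hi⟩)
      simpa using this
    · exact congrFun huu.2 ⟨i, hi⟩

/-- QA2 -/
theorem QA2 (hQC1 : QC1_stmt) : QA2_stmt := by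
  intro p V _ _ T MM hT k
  set h : ℕ := p.N - p.N / p.E with hh
  have hE : 0 < p.E := by
    have h1 := p.N8
    have h2 := p.hLog
    have h3 := p.hLam
    have h5 := p.N7
    have h4 : 0 < p.c := by nlinarith
    have h6 : 0 < p.B := lt_of_lt_of_le (pow_pos h4 _) h5
    exact lt_of_lt_of_le (pow_pos (Nat.mul_pos h4 h6) _) h1
  set n : Finset (Fin k) → ℕ := fun I => ((Finset.univ : Finset (Fin k → V)).filter
    (fun u => (Finset.univ.filter (fun x : V => ∃ i ∈ I, T.Adj (u i) x)).card < h)).card with hn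
  have hone : ∀ I : Finset (Fin k), n I * p.E ^ I.card ≤ 2 ^ I.card * p.N ^ k * p.E ^ p.f1 := by
    intro I
    have hIk : I.card ≤ k := by
      have := Finset.card_le_univ I
      simpa using this
    have h1 := hQC1 p V T MM hT I.card
    have h2 := QA2_restrict (V := V) k I (fun u => p.N ≤ p.E * (Finset.univ.filter
      (fun x : V => ∀ i, ¬ T.Adj (u i) x)).card)
      (fun u => (Finset.univ.filter (fun x : V => ∃ i ∈ I, T.Adj (u i) x)).card < h) (by
        intro u hu
        have e1 : (Finset.univ.filter (fun x : V => ∀ i, ¬ T.Adj (u (I.equivFin.symm i).1) x)) =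
            Finset.univ.filter (fun x : V => ¬ ∃ i ∈ I, T.Adj (u i) x) := by
          ext x
          simp only [Finset.mem_filter, Finset.mem_univ, true_and, not_exists, not_and]
          constructor
          · intro hx i hi
            have := hx (I.equivFin ⟨i, hi⟩)
            simpa using this
          · intro hx i
            exact hx _ (I.equivFin.symm i).2
        have e2 := Finset.card_filter_add_card_filter_not (s := (Finset.univ : Finset V))
          (fun x : V => ∃ i ∈ I, T.Adj (u i) x)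
        rw [Finset.card_univ, hT.card_V] at e2
        rw [e1]
        have h3 : p.N / p.E + 1 ≤ (Finset.univ.filter
            (fun x : V => ¬ ∃ i ∈ I, T.Adj (u i) x)).card := by
          omega
        have h4 : p.N < p.E * (p.N / p.E + 1) := Nat.lt_mul_div_succ _ hE
        exact le_trans h4.le (Nat.mul_le_mul_left _ h3))
    rw [hT.card_V] at h2
    calc n I * p.E ^ I.card ≤ (((Finset.univ : Finset (Fin I.card → V)).filter (fun u =>
          p.N ≤ p.E * (Finset.univ.filter (fun x : V => ∀ i, ¬ T.Adj (u i) x)).card)).card *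
          p.N ^ (k - I.card)) * p.E ^ I.card := Nat.mul_le_mul_right _ h2
      _ = (((Finset.univ : Finset (Fin I.card → V)).filter (fun u =>
          p.N ≤ p.E * (Finset.univ.filter (fun x : V => ∀ i, ¬ T.Adj (u i) x)).card)).card *
          p.E ^ I.card) * p.N ^ (k - I.card) := by ring
      _ ≤ (2 ^ I.card * p.N ^ I.card * p.E ^ p.f1) * p.N ^ (k - I.card) :=
          Nat.mul_le_mul_right _ h1
      _ = 2 ^ I.card * (p.N ^ I.card * p.N ^ (k - I.card)) * p.E ^ p.f1 := by ring
      _ = 2 ^ I.card * p.N ^ k * p.E ^ p.f1 := by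
          rw [← pow_add, Nat.add_sub_cancel' hIk]
  -- the maximum
  set F : Finset (Finset (Fin k)) := (Finset.univ : Finset (Finset (Fin k))).filter
    (fun I => k ≤ 2 * I.card) with hF
  have hne : F.Nonempty := ⟨Finset.univ, by simp [hF]; omega⟩
  obtain ⟨I0, hI0, hmax⟩ := Finset.exists_max_image F n hne
  have hI0k : k ≤ 2 * I0.card := (Finset.mem_filter.mp hI0).2
  have hI0c : I0.card ≤ k := by
    have := Finset.card_le_univ I0
    simpa using this
  have hF2 : F.card ≤ 2 ^ k := by
    refine (Finset.card_filter_le _ _).trans ?_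
    simp
  have hbad : (BadU T k h).card ≤ 2 ^ k * n I0 := by
    have h1 : BadU T k h ⊆ F.biUnion (fun I => (Finset.univ : Finset (Fin k → V)).filter
        (fun u => (Finset.univ.filter (fun x : V => ∃ i ∈ I, T.Adj (u i) x)).card < h)) := by
      intro u hu
      unfold BadU at hu
      rw [Finset.mem_filter] at hu
      obtain ⟨_, I, hI1, hI2⟩ := hu
      rw [Finset.mem_biUnion]
      exact ⟨I, by simp [hF, hI1], by simp [hI2]⟩
    calc (BadU T k h).card ≤ _ := Finset.card_le_card h1
      _ ≤ ∑ I ∈ F, n I := Finset.card_biUnion_le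
      _ ≤ ∑ I ∈ F, n I0 := Finset.sum_le_sum hmax
      _ = F.card * n I0 := by simp
      _ ≤ 2 ^ k * n I0 := Nat.mul_le_mul_right _ hF2
  have hsq : n I0 ^ 2 * p.E ^ k ≤ 4 ^ k * p.N ^ (2 * k) * p.E ^ (2 * p.f1) := by
    calc n I0 ^ 2 * p.E ^ k ≤ n I0 ^ 2 * p.E ^ (2 * I0.card) :=
          Nat.mul_le_mul_left _ (Nat.pow_le_pow_right hE hI0k)
      _ = (n I0 * p.E ^ I0.card) ^ 2 := by rw [mul_pow, ← pow_mul, mul_comm 2]
      _ ≤ (2 ^ I0.card * p.N ^ k * p.E ^ p.f1) ^ 2 := Nat.pow_le_pow_left (hone I0) 2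
      _ ≤ (2 ^ k * p.N ^ k * p.E ^ p.f1) ^ 2 := by
          refine Nat.pow_le_pow_left ?_ 2
          exact Nat.mul_le_mul_right _ (Nat.mul_le_mul_right _
            (Nat.pow_le_pow_right (by norm_num) hI0c))
      _ = 4 ^ k * p.N ^ (2 * k) * p.E ^ (2 * p.f1) := by
          rw [mul_pow, mul_pow, ← pow_mul, ← pow_mul, ← pow_mul, mul_comm k 2,
            mul_comm p.f1 2, pow_mul 2 2 k]
          norm_num
  calc (BadU T k h).card ^ 2 * p.E ^ k ≤ (2 ^ k * n I0) ^ 2 * p.E ^ k :=
        Nat.mul_le_mul_right _ (Nat.pow_le_pow_left hbad 2)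
    _ = 4 ^ k * (n I0 ^ 2 * p.E ^ k) := by
        rw [mul_pow, ← pow_mul, mul_comm k 2, pow_mul]; norm_num; ring
    _ ≤ 4 ^ k * (4 ^ k * p.N ^ (2 * k) * p.E ^ (2 * p.f1)) := Nat.mul_le_mul_left _ hsq
    _ = 16 ^ k * p.N ^ (2 * k) * p.E ^ (2 * p.f1) := by
        have : 16 ^ k = 4 ^ k * 4 ^ k := by rw [← mul_pow]; norm_num
        rw [this]; ring

end Pool.Agent.helper24.TG
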