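import Pool.Agent.helper24.TG.S3

set_option linter.all false
set_option autoImplicit false

namespace Pool.Agent.helper24.TG

open Finset Classical
open Pool.Agent.helper11.Tight (nb eo mem_nb)

theorem QI_E (p : Par) : 4 ^ 16 ≤ p.E := by
  have h1 := p.N8
  have h2 := p.hLog
  have h3 := p.hLam
  have h4 : 10 ^ 6 ≤ p.c := by nlinarith
  have h5 := p.N7
  have h6 : 1 ≤ p.B := le_trans (Nat.one_le_pow _ _ (by omega)) h5
  have h7 : 10 ^ 6 ≤ p.c * p.B := le_trans h4 (Nat.le_mul_of_pos_right _ h6)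
  calc 4 ^ 16 ≤ (10 ^ 6) ^ 100 := by norm_num
    _ ≤ (p.c * p.B) ^ 100 := Nat.pow_le_pow_left h7 _
    _ ≤ p.E := h1

theorem QI_f1 (p : Par) : 1 ≤ p.f1 := by
  unfold Par.f1; exact Nat.le_add_left _ _

theorem QI_exp {k q : ℝ} (hk : 0 ≤ k) (hq : 0 < q) (h : 4 * k ≤ q ^ 2) (n : ℕ) (hn : (n : ℝ) = k) :
    Real.exp (2 * k ^ 2 / q ^ 2) ≤ 2 ^ n := by
  have h1 : 2 * k ^ 2 / q ^ 2 ≤ n * (1 / 2) := by
    rw [div_le_iff₀ (by positivity), hn]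
    nlinarith
  have h2 : Real.exp (1 / 2) ≤ 2 := by
    have h4 : Real.exp 1 < 2.7182818286 := Real.exp_one_lt_d9
    have h5 : Real.exp (1/2) * Real.exp (1/2) = Real.exp 1 := by
      rw [← Real.exp_add]; norm_num
    nlinarith [Real.exp_pos (1/2)]
  calc Real.exp (2 * k ^ 2 / q ^ 2) ≤ Real.exp (n * (1 / 2)) := Real.exp_le_exp.mpr h1
    _ = Real.exp (1 / 2) ^ n := by rw [← Real.exp_nat_mul]
    _ ≤ 2 ^ n := pow_le_pow_left₀ (Real.exp_pos _).le h2 _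

theorem QI_aux (hLB6 : LB6_stmt) (hQC2 : QC2_stmt) (p : Par) (P O V : Type) [Fintype P]
    [DecidableEq P] [Fintype O] [DecidableEq O] [Fintype V] [DecidableEq V] (H : Host P O p.q)
    (T : SimpleGraph V) (MM : Finset (Finset V)) (v0 : V) (hT : TSp p T MM) (J : Finset P)
    (hJ : J ⊆ PA H) (h8 : 8 * p.f1 ≤ J.card) (h4 : 4 * J.card ≤ p.q ^ 2) (F : Finset (P → V))
    (hF : ∀ φ ∈ F, φ ∈ Psi p H v0 ∧ ∀ t ∈ J, ∀ t' ∈ J, ¬ T.Adj (φ t) (φ t')) :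
    F.card * p.E ^ (J.card / 2) ≤ (Psi p H v0).card := by
  set k := J.card with hk
  let e : Fin k → P := fun i => (J.equivFin.symm i).1
  have he : Function.Injective e := fun i j h => J.equivFin.symm.injective (Subtype.ext h)
  have heJ : ∀ i, e i ∈ J := fun i => (J.equivFin.symm i).2
  have hsurj : ∀ t ∈ J, ∃ i, e i = t := fun t ht => ⟨J.equivFin ⟨t, ht⟩, by simp [e]⟩
  set SS : Finset (Fin k → V) := (Finset.univ : Finset (Fin k → V)).filter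
    (fun u => ∀ i j, ¬ T.Adj (u i) (u j)) with hSS
  have hq : (0 : ℝ) < p.q := by
    have h1 := QI_f1 p
    have h2 : 0 < p.q ^ 2 := by omega
    have h3 : 0 < p.q := Nat.pos_of_ne_zero (by rintro h; rw [h] at h2; simp at h2)
    exact_mod_cast h3
  have hN : (0 : ℝ) < p.N := by exact_mod_cast p.hN
  have h1 := hLB6 p P O V H v0 hT.card_V k e SS he (fun i => hJ (heJ i)) (by omega)
  have h2 := hQC2 p V T MM hT k
  have h3 : F.card ≤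
      ((Psi p H v0).filter (fun φ => (fun i => φ (e i)) ∈ SS)).card := by
    refine Finset.card_le_card ?_
    intro φ hφ
    have hφ := hF φ hφ
    rw [Finset.mem_filter]
    refine ⟨hφ.1, ?_⟩
    rw [hSS, Finset.mem_filter]
    exact ⟨Finset.mem_univ _, fun i j => hφ.2 _ (heJ i) _ (heJ j)⟩
  set X : ℝ := (F.card : ℝ) with hX
  set Y : ℝ := ((Psi p H v0).card : ℝ) with hY
  have hX3 : X ≤ (((Psi p H v0).filter (fun φ => (fun i => φ (e i)) ∈ SS)).card : ℝ) := by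
    rw [hX]; exact Nat.cast_le.mpr h3
  have h2' : (SS.card : ℝ) * (p.E : ℝ) ^ k ≤ 2 ^ k * (p.N : ℝ) ^ k * (p.E : ℝ) ^ p.f1 := by
    exact_mod_cast h2
  have hexp : Real.exp (2 * (k : ℝ) ^ 2 / (p.q : ℝ) ^ 2) ≤ 2 ^ k :=
    QI_exp (by positivity) hq (by exact_mod_cast h4) k rfl
  have hY0 : 0 ≤ Y := by positivity
  have hE0 : (0 : ℝ) < (p.E : ℝ) := by
    have := QI_E p
    have : 0 < p.E := by omega
    exact_mod_cast this
  have key : X * (p.E : ℝ) ^ k * (p.N : ℝ) ^ k ≤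
      (4 ^ k * (p.E : ℝ) ^ p.f1 * Y) * (p.N : ℝ) ^ k := by
    calc X * (p.E : ℝ) ^ k * (p.N : ℝ) ^ k = (X * (p.N : ℝ) ^ k) * (p.E : ℝ) ^ k := by ring
      _ ≤ ((((Psi p H v0).filter (fun φ => (fun i => φ (e i)) ∈ SS)).card : ℝ) *
          (p.N : ℝ) ^ k) * (p.E : ℝ) ^ k := by
          have : (0 : ℝ) ≤ (p.N : ℝ) ^ k := by positivity
          gcongr
      _ ≤ (SS.card * Y * Real.exp (2 * (k : ℝ) ^ 2 / (p.q : ℝ) ^ 2)) * (p.E : ℝ) ^ k := by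
          gcongr
      _ ≤ (SS.card * Y * 2 ^ k) * (p.E : ℝ) ^ k := by gcongr
      _ = (SS.card * (p.E : ℝ) ^ k) * (Y * 2 ^ k) := by ring
      _ ≤ (2 ^ k * (p.N : ℝ) ^ k * (p.E : ℝ) ^ p.f1) * (Y * 2 ^ k) := by gcongr
      _ = (4 ^ k * (p.E : ℝ) ^ p.f1 * Y) * (p.N : ℝ) ^ k := by
          have : (4 : ℝ) ^ k = 2 ^ k * 2 ^ k := by rw [← mul_pow]; norm_num
          rw [this]; ring
  have key2 : X * (p.E : ℝ) ^ k ≤ 4 ^ k * (p.E : ℝ) ^ p.f1 * Y :=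
    le_of_mul_le_mul_right key (by positivity)
  -- exponents
  obtain ⟨m, hm⟩ : ∃ m, k = k / 2 + p.f1 + m := ⟨k - k / 2 - p.f1, by omega⟩
  have hm16 : k ≤ 16 * m := by omega
  have h4E : (4 : ℝ) ^ k ≤ (p.E : ℝ) ^ m := by
    have h5 : 4 ^ k ≤ p.E ^ m := by
      calc 4 ^ k ≤ 4 ^ (16 * m) := Nat.pow_le_pow_right (by norm_num) hm16
        _ = (4 ^ 16) ^ m := by rw [pow_mul]
        _ ≤ p.E ^ m := Nat.pow_le_pow_left (QI_E p) m
    exact_mod_cast h5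
  have key3 : X * (p.E : ℝ) ^ (k / 2) * ((p.E : ℝ) ^ p.f1 * (p.E : ℝ) ^ m) ≤
      Y * ((p.E : ℝ) ^ p.f1 * (p.E : ℝ) ^ m) := by
    have e1 : X * (p.E : ℝ) ^ (k / 2) * ((p.E : ℝ) ^ p.f1 * (p.E : ℝ) ^ m) =
        X * (p.E : ℝ) ^ k := by
      conv_rhs => rw [hm]
      rw [pow_add, pow_add]; ring
    rw [e1]
    calc X * (p.E : ℝ) ^ k ≤ 4 ^ k * (p.E : ℝ) ^ p.f1 * Y := key2
      _ ≤ (p.E : ℝ) ^ m * (p.E : ℝ) ^ p.f1 * Y :=
          mul_le_mul_of_nonneg_right (mul_le_mul_of_nonneg_right h4E (pow_nonneg hE0.le _)) hY0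
      _ = _ := by rw [mul_comm ((p.E : ℝ) ^ m), mul_comm]
  have key4 : X * (p.E : ℝ) ^ (k / 2) ≤ Y :=
    le_of_mul_le_mul_right key3 (mul_pos (pow_pos hE0 _) (pow_pos hE0 _))
  rw [hX, hY, ← Nat.cast_pow, ← Nat.cast_mul] at key4
  exact Nat.cast_le.mp key4

/-- QI -/
theorem QI (hLB6 : LB6_stmt) (hQC2 : QC2_stmt) : QI_stmt := by
  intro p P O V _ _ _ _ _ _ H T MM v0 hT J hJ h8 h4
  exact QI_aux hLB6 hQC2 p P O V H T MM v0 hT J hJ h8 h4 _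
    (fun φ hφ => Finset.mem_filter.mp hφ)

end Pool.Agent.helper24.TG
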