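import Pool.Agent.helper24.TG.S3
import Pool.Agent.helper84.TG.QA2
import Pool.Agent.helper84.TG.QI

set_option linter.all false
set_option autoImplicit false

namespace Pool.Agent.helper24.TG

open Finset Classical
open Pool.Agent.helper11.Tight (nb eo mem_nb)

/-- number of pairs of label vectors -/
theorem QP_count (p : Par) {P O A V : Type} [Fintype P] [DecidableEq P] [Fintype O]
    [DecidableEq O] [Fintype A] [DecidableEq A] [AddCommGroup A] [Fintype V] [DecidableEq V]
    (H : Host P O p.q) (v : O → A) (T : SimpleGraph V) (hV : Fintype.card V = p.N)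
    (a : ℕ) (x y : Fin a → P × A)
    (hbad : ((Finset.univ : Finset (Fin a)).filter (fun j =>
      2 * ((Finset.univ : Finset (Fin a)).filter (fun i => x i ∉ Gam H v (y j))).card < a)).card ≤
        p.c) :
    (((Finset.univ : Finset ((Fin a → V) × (Fin a → V)))).filter (fun w =>
      ∀ i j, T.Adj (w.1 i) (w.2 j) → col H v (x i) (y j))).card * p.E ^ (a - p.c) ≤
      (BadU T a (p.N - p.N / p.E)).card * p.N ^ a * p.E ^ (a - p.c) + p.N ^ a * p.N ^ a := by
  have hE : 0 < p.E := by have := QI_E p; omega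
  set h : ℕ := p.N - p.N / p.E with hh
  set PP := ((Finset.univ : Finset ((Fin a → V) × (Fin a → V)))).filter (fun w =>
      ∀ i j, T.Adj (w.1 i) (w.2 j) → col H v (x i) (y j)) with hPP
  set bad : Fin a → Prop := fun j =>
      2 * ((Finset.univ : Finset (Fin a)).filter (fun i => x i ∉ Gam H v (y j))).card < a
      with hbaddef
  set YY : (Fin a → V) → Fin a → Finset V := fun u j => if bad j then Finset.univ else
    Finset.univ.filter (fun t : V => ∀ i, x i ∉ Gam H v (y j) → ¬ T.Adj (u i) t) with hYY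
  set G : Finset (Fin a → V) := Finset.univ.filter (fun u => u ∉ BadU T a h) with hG
  have hsub : PP ⊆ (BadU T a h ×ˢ (Finset.univ : Finset (Fin a → V))) ∪
      G.biUnion (fun u => (Fintype.piFinset (YY u)).image (fun w => (u, w))) := by
    intro w hw
    rw [hPP, Finset.mem_filter] at hw
    rw [Finset.mem_union]
    by_cases hb : w.1 ∈ BadU T a h
    · left
      exact Finset.mem_product.mpr ⟨hb, Finset.mem_univ _⟩
    · right
      rw [Finset.mem_biUnion]
      refine ⟨w.1, by simp [hG, hb], ?_⟩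
      rw [Finset.mem_image]
      refine ⟨w.2, ?_, rfl⟩
      rw [Fintype.mem_piFinset]
      intro j
      simp only [hYY]
      split_ifs with hj
      · exact Finset.mem_univ _
      · rw [Finset.mem_filter]
        refine ⟨Finset.mem_univ _, fun i hi hadj => ?_⟩
        have := hw.2 i j hadj
        apply hi
        rw [mem_Gam]
        exact col_symm this
  have hcardY : ∀ u ∈ G, (Fintype.piFinset (YY u)).card * p.E ^ (a - p.c) ≤ p.N ^ a := by
    intro u hu
    have hu' : u ∉ BadU T a h := (Finset.mem_filter.mp hu).2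
    have hEexp : p.E ^ (a - p.c) ≤ ∏ j : Fin a, (if bad j then 1 else p.E) := by
      have h1 : ∏ j : Fin a, (if bad j then 1 else p.E) =
          p.E ^ ((Finset.univ : Finset (Fin a)).filter (fun j => ¬ bad j)).card := by
        rw [Finset.prod_ite, Finset.prod_const_one, one_mul, Finset.prod_const]
      rw [h1]
      refine Nat.pow_le_pow_right hE ?_
      have h2 := Finset.card_filter_add_card_filter_not (s := (Finset.univ : Finset (Fin a))) bad
      rw [Finset.card_univ, Fintype.card_fin] at h2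
      have h3 : ((Finset.univ : Finset (Fin a)).filter bad).card ≤ p.c := hbad
      omega
    calc (Fintype.piFinset (YY u)).card * p.E ^ (a - p.c)
        ≤ (Fintype.piFinset (YY u)).card * ∏ j : Fin a, (if bad j then 1 else p.E) :=
          Nat.mul_le_mul_left _ hEexp
      _ = ∏ j : Fin a, ((YY u j).card * (if bad j then 1 else p.E)) := by
          rw [Fintype.card_piFinset, Finset.prod_mul_distrib]
      _ ≤ ∏ j : Fin a, p.N := by
          refine Finset.prod_le_prod' fun j _ => ?_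
          by_cases hj : bad j
          · have e1 : YY u j = Finset.univ := by simp only [hYY]; rw [if_pos hj]
            rw [if_pos hj, mul_one, e1, Finset.card_univ, hV]
          · have e1 : YY u j =
                Finset.univ.filter (fun t : V => ∀ i, x i ∉ Gam H v (y j) → ¬ T.Adj (u i) t) := by
              simp only [hYY]; rw [if_neg hj]
            rw [if_neg hj, e1]
            set I : Finset (Fin a) := (Finset.univ : Finset (Fin a)).filter
              (fun i => x i ∉ Gam H v (y j)) with hI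
            have hI2 : a ≤ 2 * I.card := not_lt.mp hj
            have hnb : ¬ ((Finset.univ.filter (fun t : V => ∃ i ∈ I, T.Adj (u i) t)).card < h) := by
              intro hlt
              apply hu'
              unfold BadU
              rw [Finset.mem_filter]
              exact ⟨Finset.mem_univ _, I, hI2, hlt⟩
            have h4 := Finset.card_filter_add_card_filter_not (s := (Finset.univ : Finset V))
              (fun t : V => ∃ i ∈ I, T.Adj (u i) t)
            rw [Finset.card_univ, hV] at h4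
            have h5 : (Finset.univ.filter (fun t : V => ∀ i, x i ∉ Gam H v (y j) →
                ¬ T.Adj (u i) t)) = Finset.univ.filter
                (fun t : V => ¬ ∃ i ∈ I, T.Adj (u i) t) := by
              ext t
              simp only [Finset.mem_filter, Finset.mem_univ, true_and, not_exists, not_and, hI]
            rw [h5]
            have h6 : (Finset.univ.filter (fun t : V => ¬ ∃ i ∈ I, T.Adj (u i) t)).card ≤
                p.N / p.E := by
              have h7 : p.N / p.E ≤ p.N := Nat.div_le_self _ _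
              omega
            calc _ ≤ p.N / p.E * p.E := Nat.mul_le_mul_right _ h6
              _ ≤ p.N := Nat.div_mul_le_self _ _
      _ = p.N ^ a := by simp
  have h1 : PP.card ≤ (BadU T a h).card * p.N ^ a +
      ∑ u ∈ G, (Fintype.piFinset (YY u)).card := by
    refine (Finset.card_le_card hsub).trans ((Finset.card_union_le _ _).trans ?_)
    refine Nat.add_le_add ?_ ?_
    · rw [Finset.card_product, Finset.card_univ, Fintype.card_fun, Fintype.card_fin, hV]
    · refine Finset.card_biUnion_le.trans (Finset.sum_le_sum fun u _ => Finset.card_image_le)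
  calc PP.card * p.E ^ (a - p.c) ≤ ((BadU T a h).card * p.N ^ a +
        ∑ u ∈ G, (Fintype.piFinset (YY u)).card) * p.E ^ (a - p.c) := Nat.mul_le_mul_right _ h1
    _ = (BadU T a h).card * p.N ^ a * p.E ^ (a - p.c) +
        ∑ u ∈ G, (Fintype.piFinset (YY u)).card * p.E ^ (a - p.c) := by
        rw [add_mul, Finset.sum_mul]
    _ ≤ (BadU T a h).card * p.N ^ a * p.E ^ (a - p.c) + ∑ u ∈ G, p.N ^ a :=
        Nat.add_le_add_left (Finset.sum_le_sum hcardY) _
    _ ≤ (BadU T a h).card * p.N ^ a * p.E ^ (a - p.c) + p.N ^ a * p.N ^ a := by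
        refine Nat.add_le_add_left ?_ _
        rw [Finset.sum_const, smul_eq_mul]
        refine Nat.mul_le_mul_right _ ?_
        refine (Finset.card_filter_le _ _).trans ?_
        rw [Finset.card_univ, Fintype.card_fun, Fintype.card_fin, hV]

/-- numerical part -/
theorem QP_num (p : Par) (a : ℕ) (b : ℕ) (hb : b ^ 2 * p.E ^ a ≤
    16 ^ a * p.N ^ (2 * a) * p.E ^ (2 * p.f1)) (ha : 1 ≤ a) (hf : 16 * p.f1 ≤ a)
    (hc : 8 * p.c ≤ a) :
    2 * (b : ℝ) * 2 ^ a * (p.E : ℝ) ^ (a / 4) ≤ (p.N : ℝ) ^ a ∧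
    2 * (2 : ℝ) ^ a * (p.E : ℝ) ^ (a / 4) ≤ (p.E : ℝ) ^ (a - p.c) := by
  have hE16 := QI_E p
  have hE : 0 < p.E := by omega
  have hN : 0 < p.N := p.hN
  constructor
  · have h1 : (2 * b * 2 ^ a * p.E ^ (a / 4)) ^ 2 * p.E ^ a ≤ (p.N ^ a) ^ 2 * p.E ^ a := by
      obtain ⟨m, hm⟩ : ∃ m, a = 2 * p.f1 + 2 * (a / 4) + m := ⟨a - 2 * p.f1 - 2 * (a / 4), by omega⟩
      have hm4 : 4 * a ≤ 16 * m := by omega
      have h2 : 4 * (64 ^ a) ≤ p.E ^ m := by
        calc 4 * 64 ^ a ≤ 4 ^ a * 64 ^ a := by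
              refine Nat.mul_le_mul_right _ ?_
              calc 4 = 4 ^ 1 := by norm_num
                _ ≤ 4 ^ a := Nat.pow_le_pow_right (by norm_num) ha
          _ = 4 ^ (4 * a) := by rw [← mul_pow, pow_mul]; norm_num
          _ ≤ 4 ^ (16 * m) := Nat.pow_le_pow_right (by norm_num) hm4
          _ = (4 ^ 16) ^ m := by rw [pow_mul]
          _ ≤ p.E ^ m := Nat.pow_le_pow_left hE16 m
      calc (2 * b * 2 ^ a * p.E ^ (a / 4)) ^ 2 * p.E ^ a
          = 4 * 4 ^ a * p.E ^ (2 * (a / 4)) * (b ^ 2 * p.E ^ a) := by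
            have e1 : (4 : ℕ) ^ a = (2 ^ a) ^ 2 := by rw [← pow_mul, mul_comm, pow_mul]; norm_num
            rw [e1, pow_mul' p.E 2 (a / 4)]; ring
        _ ≤ 4 * 4 ^ a * p.E ^ (2 * (a / 4)) * (16 ^ a * p.N ^ (2 * a) * p.E ^ (2 * p.f1)) :=
            Nat.mul_le_mul_left _ hb
        _ = (4 * 64 ^ a) * (p.E ^ (2 * p.f1) * p.E ^ (2 * (a / 4))) * p.N ^ (2 * a) := by
            have e1 : (64 : ℕ) ^ a = 4 ^ a * 16 ^ a := by rw [← mul_pow]; norm_num
            rw [e1]; ring
        _ ≤ p.E ^ m * (p.E ^ (2 * p.f1) * p.E ^ (2 * (a / 4))) * p.N ^ (2 * a) :=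
            Nat.mul_le_mul_right _ (Nat.mul_le_mul_right _ h2)
        _ = (p.N ^ a) ^ 2 * p.E ^ a := by
            have e1 : p.E ^ a = p.E ^ m * (p.E ^ (2 * p.f1) * p.E ^ (2 * (a / 4))) := by
              conv_lhs => rw [hm]
              rw [pow_add, pow_add]; ring
            rw [← e1, ← pow_mul, mul_comm a 2]; ring
    have h3 : (2 * b * 2 ^ a * p.E ^ (a / 4)) ^ 2 ≤ (p.N ^ a) ^ 2 :=
      Nat.le_of_mul_le_mul_right h1 (pow_pos hE _)
    have h4 : 2 * b * 2 ^ a * p.E ^ (a / 4) ≤ p.N ^ a :=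
      (Nat.pow_le_pow_iff_left (by norm_num)).mp h3
    have h5 : ((2 * b * 2 ^ a * p.E ^ (a / 4) : ℕ) : ℝ) ≤ ((p.N ^ a : ℕ) : ℝ) :=
      Nat.cast_le.mpr h4
    rw [Nat.cast_mul, Nat.cast_mul, Nat.cast_mul, Nat.cast_pow, Nat.cast_pow, Nat.cast_pow,
      Nat.cast_ofNat] at h5
    exact h5
  · obtain ⟨m, hm⟩ : ∃ m, a - p.c = a / 4 + m := ⟨a - p.c - a / 4, by omega⟩
    have hm4 : a ≤ 16 * m := by omega
    have h2 : 2 * 2 ^ a ≤ p.E ^ m := by
      calc 2 * 2 ^ a ≤ 2 ^ a * 2 ^ a := by
            refine Nat.mul_le_mul_right _ ?_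
            calc 2 = 2 ^ 1 := by norm_num
              _ ≤ 2 ^ a := Nat.pow_le_pow_right (by norm_num) ha
        _ = 4 ^ a := by rw [← mul_pow]; norm_num
        _ ≤ 4 ^ (16 * m) := Nat.pow_le_pow_right (by norm_num) hm4
        _ = (4 ^ 16) ^ m := by rw [pow_mul]
        _ ≤ p.E ^ m := Nat.pow_le_pow_left hE16 m
    have h3 : 2 * 2 ^ a * p.E ^ (a / 4) ≤ p.E ^ (a - p.c) := by
      rw [hm, pow_add, mul_comm (p.E ^ (a / 4))]
      exact Nat.mul_le_mul_right _ h2
    have h5 : ((2 * 2 ^ a * p.E ^ (a / 4) : ℕ) : ℝ) ≤ ((p.E ^ (a - p.c) : ℕ) : ℝ) :=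
      Nat.cast_le.mpr h3
    rw [Nat.cast_mul, Nat.cast_mul, Nat.cast_pow, Nat.cast_pow, Nat.cast_pow,
      Nat.cast_ofNat] at h5
    exact h5

theorem QP_aux (hLB6 : LB6_stmt) (hQC1 : QC1_stmt) (p : Par) (P O A V : Type) [Fintype P]
    [DecidableEq P] [Fintype O] [DecidableEq O] [Fintype A] [DecidableEq A] [AddCommGroup A]
    [Fintype V] [DecidableEq V] (H : Host P O p.q) (v : O → A) (T : SimpleGraph V)
    (MM : Finset (Finset V)) (v0 : V) (hT : TSp p T MM) (A1 A2 : Finset (P × A)) (a : ℕ)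
    (h1 : A1 ⊆ XA A H) (h2 : A2 ⊆ XA A H) (hc1 : A1.card = a) (hc2 : A2.card = a)
    (hdis : Disjoint A1 A2) (htyp : ∀ x ∈ A1 ∪ A2, ∀ y ∈ A1 ∪ A2, x.1 = y.1 → x = y)
    (hbad : (A2.filter (fun y => 2 * (A1 \ Gam H v y).card < a)).card ≤ p.c)
    (hf : 16 * p.f1 ≤ a) (hc : 8 * p.c ≤ a) (hq : 16 * a ≤ p.q ^ 2) (F : Finset (P → V))
    (hF : ∀ φ ∈ F, φ ∈ Psi p H v0 ∧
      ∀ x ∈ A1, ∀ y ∈ A2, T.Adj (φ x.1) (φ y.1) → col H v x y) :
    F.card * p.E ^ (a / 4) ≤ (Psi p H v0).card := by
  have hE16 := QI_E p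
  have hE0 : (0 : ℝ) < p.E := by
    have : 0 < p.E := by omega
    exact_mod_cast this
  have hN : (0 : ℝ) < p.N := by exact_mod_cast p.hN
  have ha : 1 ≤ a := by have := QI_f1 p; omega
  let e1 : A1 ≃ Fin a := Finset.equivFinOfCardEq hc1
  let e2 : A2 ≃ Fin a := Finset.equivFinOfCardEq hc2
  let x : Fin a → P × A := fun i => (e1.symm i).1
  let y : Fin a → P × A := fun j => (e2.symm j).1
  have hx : ∀ i, x i ∈ A1 := fun i => (e1.symm i).2
  have hy : ∀ j, y j ∈ A2 := fun j => (e2.symm j).2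
  have hxi : Function.Injective x := fun i j h => e1.symm.injective (Subtype.ext h)
  have hyi : Function.Injective y := fun i j h => e2.symm.injective (Subtype.ext h)
  have hxs : ∀ t ∈ A1, ∃ i, x i = t := fun t ht => ⟨e1 ⟨t, ht⟩, by simp [x]⟩
  -- the bad indices
  have hbad' : ((Finset.univ : Finset (Fin a)).filter (fun j =>
      2 * ((Finset.univ : Finset (Fin a)).filter (fun i => x i ∉ Gam H v (y j))).card < a)).card ≤
        p.c := by
    refine le_trans ?_ hbad
    refine Finset.card_le_card_of_injOn y ?_ (hyi.injOn)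
    intro j hj
    have hj : 2 * ((Finset.univ : Finset (Fin a)).filter (fun i => x i ∉ Gam H v (y j))).card < a :=
      (Finset.mem_filter.mp hj).2
    refine Finset.mem_filter.mpr ⟨hy j, ?_⟩
    have e : ((Finset.univ : Finset (Fin a)).filter (fun i => x i ∉ Gam H v (y j))).card =
        (A1 \ Gam H v (y j)).card := by
      rw [← Finset.card_image_of_injective _ hxi]
      congr 1
      ext t
      simp only [Finset.mem_image, Finset.mem_filter, Finset.mem_univ, true_and,
        Finset.mem_sdiff]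
      constructor
      · rintro ⟨i, hi, rfl⟩
        exact ⟨hx i, hi⟩
      · rintro ⟨ht, ht'⟩
        obtain ⟨i, rfl⟩ := hxs t ht
        exact ⟨i, ht', rfl⟩
    rw [← e]; exact hj
  have hcount := QP_count p H v T hT.card_V a x y hbad'
  set b := (BadU T a (p.N - p.N / p.E)).card with hb
  have hb2 : b ^ 2 * p.E ^ a ≤ 16 ^ a * p.N ^ (2 * a) * p.E ^ (2 * p.f1) :=
    QA2 hQC1 p V T MM hT a
  obtain ⟨n1, n2⟩ := QP_num p a b hb2 ha hf hc
  set PP := ((Finset.univ : Finset ((Fin a → V) × (Fin a → V)))).filter (fun w =>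
      ∀ i j, T.Adj (w.1 i) (w.2 j) → col H v (x i) (y j)) with hPP
  -- the enumeration of the types
  let e : Fin (a + a) → P :=
    Sum.elim (fun i => (x i).1) (fun j => (y j).1) ∘ finSumFinEquiv.symm
  have he : Function.Injective e := by
    refine Function.Injective.comp ?_ finSumFinEquiv.symm.injective
    refine Function.Injective.sumElim ?_ ?_ ?_
    · intro i j h
      exact hxi (htyp _ (Finset.mem_union_left _ (hx i)) _ (Finset.mem_union_left _ (hx j)) h)
    · intro i j h
      exact hyi (htyp _ (Finset.mem_union_right _ (hy i)) _ (Finset.mem_union_right _ (hy j)) h)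
    · intro i j h
      have := htyp _ (Finset.mem_union_left _ (hx i)) _ (Finset.mem_union_right _ (hy j)) h
      exact Finset.disjoint_left.mp hdis (hx i) (this ▸ hy j)
  have heP : ∀ i, e i ∈ PA H := by
    intro i
    simp only [e, Function.comp]
    cases finSumFinEquiv.symm i with
    | inl i =>
      have := h1 (hx i)
      rw [mem_XA] at this
      simpa using this
    | inr i =>
      have := h2 (hy i)
      rw [mem_XA] at this
      simpa using this
  set SS : Finset (Fin (a + a) → V) := Finset.univ.filter (fun w =>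
    ∀ i j, T.Adj (w (finSumFinEquiv (Sum.inl i))) (w (finSumFinEquiv (Sum.inr j))) →
      col H v (x i) (y j)) with hSS
  have hSSc : SS.card ≤ PP.card := by
    refine Finset.card_le_card_of_injOn (fun w => (fun i => w (finSumFinEquiv (Sum.inl i)),
      fun j => w (finSumFinEquiv (Sum.inr j)))) ?_ ?_
    · intro w hw
      have hw := (Finset.mem_filter.mp hw).2
      exact Finset.mem_filter.mpr ⟨Finset.mem_univ _, hw⟩
    · intro w _ w' _ hww
      simp only [Prod.mk.injEq] at hww
      funext i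
      obtain ⟨s, rfl⟩ := finSumFinEquiv.surjective i
      cases s with
      | inl i => exact congrFun hww.1 i
      | inr i => exact congrFun hww.2 i
  have hFS : F.card ≤ ((Psi p H v0).filter (fun φ => (fun i => φ (e i)) ∈ SS)).card := by
    refine Finset.card_le_card ?_
    intro φ hφ
    obtain ⟨hφ1, hφ2⟩ := hF φ hφ
    rw [Finset.mem_filter]
    refine ⟨hφ1, ?_⟩
    rw [hSS, Finset.mem_filter]
    refine ⟨Finset.mem_univ _, fun i j hadj => ?_⟩
    refine hφ2 _ (hx i) _ (hy j) ?_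
    have e3 : e (finSumFinEquiv (Sum.inl i)) = (x i).1 := by
      simp only [e, Function.comp, Equiv.symm_apply_apply, Sum.elim_inl]
    have e4 : e (finSumFinEquiv (Sum.inr j)) = (y j).1 := by
      simp only [e, Function.comp, Equiv.symm_apply_apply, Sum.elim_inr]
    have hadj' : T.Adj (φ (e (finSumFinEquiv (Sum.inl i)))) (φ (e (finSumFinEquiv (Sum.inr j)))) :=
      hadj
    rw [e3, e4] at hadj'
    exact hadj'
  have hLB := hLB6 p P O V H v0 hT.card_V (a + a) e SS he heP (by omega)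
  set X : ℝ := (F.card : ℝ) with hX
  set Y : ℝ := ((Psi p H v0).card : ℝ) with hY
  have hY0 : 0 ≤ Y := Nat.cast_nonneg _
  have hXF : X ≤ (((Psi p H v0).filter (fun φ => (fun i => φ (e i)) ∈ SS)).card : ℝ) := by
    rw [hX]; exact Nat.cast_le.mpr hFS
  have hqpos : (0 : ℝ) < p.q := by
    have h2 : 0 < p.q ^ 2 := by omega
    have h3 : 0 < p.q := Nat.pos_of_ne_zero (by rintro h; rw [h] at h2; simp at h2)
    exact_mod_cast h3
  have hexp : Real.exp (2 * ((a + a : ℕ) : ℝ) ^ 2 / (p.q : ℝ) ^ 2) ≤ 2 ^ a := by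
    have hq' : 16 * (a : ℝ) ≤ (p.q : ℝ) ^ 2 := by exact_mod_cast hq
    have h1 : 2 * ((a + a : ℕ) : ℝ) ^ 2 / (p.q : ℝ) ^ 2 ≤ a * (1 / 2) := by
      rw [div_le_iff₀ (by positivity)]
      push_cast
      nlinarith [(Nat.cast_nonneg a : (0 : ℝ) ≤ a)]
    have h2 : Real.exp (1 / 2) ≤ 2 := by
      have h4 : Real.exp 1 < 2.7182818286 := Real.exp_one_lt_d9
      have h5 : Real.exp (1/2) * Real.exp (1/2) = Real.exp 1 := by
        rw [← Real.exp_add]; norm_num
      nlinarith [Real.exp_pos (1/2)]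
    calc Real.exp (2 * ((a + a : ℕ) : ℝ) ^ 2 / (p.q : ℝ) ^ 2) ≤ Real.exp (a * (1 / 2)) :=
          Real.exp_le_exp.mpr h1
      _ = Real.exp (1 / 2) ^ a := by rw [← Real.exp_nat_mul]
      _ ≤ 2 ^ a := pow_le_pow_left₀ (Real.exp_pos _).le h2 _
  -- real version of the count
  have hcountR : (SS.card : ℝ) * (p.E : ℝ) ^ (a - p.c) ≤
      b * (p.N : ℝ) ^ a * (p.E : ℝ) ^ (a - p.c) + (p.N : ℝ) ^ a * (p.N : ℝ) ^ a := by
    have h3 : SS.card * p.E ^ (a - p.c) ≤
        b * p.N ^ a * p.E ^ (a - p.c) + p.N ^ a * p.N ^ a :=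
      (Nat.mul_le_mul_right _ hSSc).trans hcount
    have h4 : ((SS.card * p.E ^ (a - p.c) : ℕ) : ℝ) ≤
        ((b * p.N ^ a * p.E ^ (a - p.c) + p.N ^ a * p.N ^ a : ℕ) : ℝ) := Nat.cast_le.mpr h3
    simp only [Nat.cast_mul, Nat.cast_add, Nat.cast_pow] at h4
    exact h4
  generalize hEc : (p.E : ℝ) ^ (a - p.c) = Ec at *
  generalize hE4 : (p.E : ℝ) ^ (a / 4) = E4 at *
  generalize hNa : (p.N : ℝ) ^ a = Na at *
  have hEc0 : 0 < Ec := hEc ▸ pow_pos hE0 _
  have hE40 : 0 < E4 := hE4 ▸ pow_pos hE0 _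
  have hNa0 : 0 < Na := hNa ▸ pow_pos hN _
  have hN2 : (p.N : ℝ) ^ (a + a) = Na * Na := by rw [pow_add, hNa]
  rw [hN2] at hLB
  generalize h2a : (2 : ℝ) ^ a = ta at *
  have hta0 : 0 < ta := h2a ▸ pow_pos (by norm_num) _
  have hS0 : (0 : ℝ) ≤ SS.card := Nat.cast_nonneg _
  have hb0 : (0 : ℝ) ≤ (b : ℝ) := Nat.cast_nonneg _
  -- SS * 2^a * E^(a/4) ≤ N^(2a)
  have hkey : (SS.card : ℝ) * ta * E4 ≤ Na * Na := by
    have k1 : (SS.card : ℝ) * ta * E4 * Ec * 2 ≤ Na * Na * Ec * 2 := by
      calc (SS.card : ℝ) * ta * E4 * Ec * 2 = ((SS.card : ℝ) * Ec) * (2 * ta * E4) := by ring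
        _ ≤ (b * Na * Ec + Na * Na) * (2 * ta * E4) := by
            refine mul_le_mul_of_nonneg_right hcountR ?_
            positivity
        _ = (2 * b * ta * E4) * (Na * Ec) + (2 * ta * E4) * (Na * Na) := by ring
        _ ≤ Na * (Na * Ec) + Ec * (Na * Na) := by
            refine add_le_add ?_ ?_
            · exact mul_le_mul_of_nonneg_right n1 (by positivity)
            · exact mul_le_mul_of_nonneg_right n2 (by positivity)
        _ = Na * Na * Ec * 2 := by ring
    have k2 : (SS.card : ℝ) * ta * E4 * (Ec * 2) ≤ Na * Na * (Ec * 2) := by linarith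
    exact le_of_mul_le_mul_right k2 (by positivity)
  have hfin : X * E4 * (Na * Na) ≤ Y * (Na * Na) := by
    calc X * E4 * (Na * Na) = X * (Na * Na) * E4 := by ring
      _ ≤ (((Psi p H v0).filter (fun φ => (fun i => φ (e i)) ∈ SS)).card : ℝ) * (Na * Na) *
          E4 := by
          refine mul_le_mul_of_nonneg_right (mul_le_mul_of_nonneg_right hXF ?_) hE40.le
          positivity
      _ ≤ (SS.card * Y * Real.exp (2 * ((a + a : ℕ) : ℝ) ^ 2 / (p.q : ℝ) ^ 2)) * E4 :=
          mul_le_mul_of_nonneg_right hLB hE40.le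
      _ ≤ (SS.card * Y * ta) * E4 := by
          refine mul_le_mul_of_nonneg_right (mul_le_mul_of_nonneg_left hexp ?_) hE40.le
          positivity
      _ = (SS.card * ta * E4) * Y := by ring
      _ ≤ (Na * Na) * Y := mul_le_mul_of_nonneg_right hkey hY0
      _ = Y * (Na * Na) := by ring
  have hres : X * E4 ≤ Y := le_of_mul_le_mul_right hfin (by positivity)
  rw [hX, hY, ← hE4, ← Nat.cast_pow, ← Nat.cast_mul] at hres
  exact Nat.cast_le.mp hres

/-- QP -/
theorem QP (hLB6 : LB6_stmt) (hQC1 : QC1_stmt) : QP_stmt := by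
  intro p P O A V _ _ _ _ _ _ _ _ _ H v T MM v0 hA hT A1 A2 a h1 h2 hc1 hc2 hdis htyp hbad
    hf hc hq
  exact QP_aux hLB6 hQC1 p P O A V H v T MM v0 hT A1 A2 a h1 h2 hc1 hc2 hdis htyp hbad
    hf hc hq _ (fun φ hφ => Finset.mem_filter.mp hφ)

end Pool.Agent.helper24.TG
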